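import Pool.Agent.H476R2.Pal.SDefs
import Pool.Agent.H965R2.PalS3
import Pool.Agent.Helper923.HMertens

/-! # Q8 of the palindrome project: Selberg's function beyond `z` -/

set_option autoImplicit false

namespace Pool.Agent.H442R2.PalQ8

open Finset Pool.Agent.H476R2.Pal
open Pool.Agent.H965R2.PalS3

/-- the integers up to `N` all of whose primes not dividing `10` are `< z` -/
theorem smooth_le (N z : ℕ) (ξ : ℝ) (hN : (N : ℝ) ≤ ξ) :
    ∑ n ∈ (Icc 1 N).filter (fun n => ∀ p ∈ n.primeFactors, p < z), ((n : ℝ))⁻¹ ≤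
      5 / 2 * GZ ξ z := by
  set F := (Icc 1 N).filter (fun n => ∀ p ∈ n.primeFactors, p < z) with hF
  have hmaps : ∀ n ∈ F, ll n ∈ (PZ z).divisors.filter (fun l : ℕ => (l : ℝ) ≤ ξ) := by
    intro n hn
    obtain ⟨hn0, hn3⟩ := Finset.mem_filter.1 hn
    obtain ⟨hn1, hn2⟩ := Finset.mem_Icc.1 hn0
    rw [Finset.mem_filter, Nat.mem_divisors]
    refine ⟨⟨?_, PZ_ne_zero z⟩, ?_⟩
    · unfold ll PZ
      apply Finset.prod_dvd_prod_of_subset
      intro p hp
      simp only [Finset.mem_filter, Nat.mem_primeFactors, Finset.mem_range] at hp ⊢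
      obtain ⟨⟨hp1, hp2, hp3⟩, hp4⟩ := hp
      exact ⟨hn3 p (Nat.mem_primeFactors.2 ⟨hp1, hp2, hp3⟩), hp1, hp4⟩
    · have := Nat.le_of_dvd hn1 (ll_dvd (n := n))
      have h1 : (ll n : ℝ) ≤ n := by exact_mod_cast this
      have h2 : (n : ℝ) ≤ N := by exact_mod_cast hn2
      linarith
  have hfib := Finset.sum_fiberwise_of_maps_to hmaps (fun n : ℕ => ((n : ℝ))⁻¹)
  rw [← hfib]
  unfold GZ
  rw [Finset.mul_sum]
  apply Finset.sum_le_sum
  intro l hl
  refine le_trans ?_ (fibre N z l (Nat.dvd_of_mem_divisors (Finset.mem_filter.1 hl).1))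
  apply Finset.sum_le_sum_of_subset_of_nonneg
  · intro n hn
    simp only [Finset.mem_filter] at hn ⊢
    exact ⟨(Finset.mem_filter.1 hn.1).1, hn.2⟩
  · intro n _ _
    positivity

/-- harmonic numbers -/
theorem harm_le (N : ℕ) (t : ℝ) (ht : 1 ≤ t) (hN : (N : ℝ) ≤ t) :
    ∑ n ∈ Icc 1 N, ((n : ℝ))⁻¹ ≤ 1 + Real.log t := by
  rcases Nat.eq_zero_or_pos N with rfl | h0
  · simp only [show Icc 1 0 = (∅ : Finset ℕ) from rfl, Finset.sum_empty]
    have := Real.log_nonneg ht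
    linarith
  · have h5 : ((harmonic N : ℚ) : ℝ) = ∑ n ∈ Icc 1 N, ((n : ℝ))⁻¹ := by
      rw [harmonic_eq_sum_Icc]
      push_cast
      rfl
    rw [← h5]
    refine (harmonic_le_one_add_log _).trans ?_
    have := Real.log_le_log (by exact_mod_cast h0) hN
    linarith

/-- multiples of `p` -/
theorem mult_le (N p : ℕ) (hp : 1 ≤ p) (hpN : p ≤ N) (ξ : ℝ) (hN : (N : ℝ) ≤ ξ) :
    ∑ n ∈ (Icc 1 N).filter (fun n => p ∣ n), ((n : ℝ))⁻¹ ≤
      1 / (p : ℝ) * (1 + Real.log ξ - Real.log p) := by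
  have hp0 : (0 : ℝ) < p := by exact_mod_cast hp
  have hpN' : (p : ℝ) ≤ N := by exact_mod_cast hpN
  have himg : (Icc 1 N).filter (fun n => p ∣ n) = (Icc 1 (N / p)).image (fun m => p * m) := by
    ext n
    simp only [mem_filter, mem_Icc, mem_image]
    constructor
    · rintro ⟨⟨h1, h2⟩, m, rfl⟩
      refine ⟨m, ⟨?_, ?_⟩, rfl⟩
      · exact Nat.pos_of_ne_zero (by rintro rfl; simp at h1)
      · rw [Nat.le_div_iff_mul_le (by omega)]
        linarith [Nat.mul_comm p m]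
    · rintro ⟨m, ⟨h1, h2⟩, rfl⟩
      rw [Nat.le_div_iff_mul_le (by omega)] at h2
      refine ⟨⟨Nat.mul_pos hp h1, by linarith [Nat.mul_comm p m]⟩, dvd_mul_right _ _⟩
  rw [himg, sum_image (by
    intro a _ b _ hab
    exact Nat.eq_of_mul_eq_mul_left (by omega) hab)]
  have h1 : ∑ m ∈ Icc 1 (N / p), (((p * m : ℕ) : ℝ))⁻¹ =
      1 / (p : ℝ) * ∑ m ∈ Icc 1 (N / p), ((m : ℝ))⁻¹ := by
    rw [mul_sum]
    apply sum_congr rfl
    intro m _
    push_cast
    rw [mul_inv, one_div]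
  rw [h1]
  apply mul_le_mul_of_nonneg_left _ (by positivity)
  have h2 := harm_le (N / p) (ξ / p) (by rw [le_div_iff₀ hp0]; linarith) (by
    refine (Nat.cast_div_le).trans ?_
    exact div_le_div_of_nonneg_right hN hp0.le)
  rw [Real.log_div (by linarith) hp0.ne'] at h2
  linarith

/-- Q8 -/
theorem G_H : ∃ C : ℝ, 0 ≤ C ∧ ∀ (z : ℕ) (ξ : ℝ), 2 ≤ z → (z : ℝ) ≤ ξ →
    2 / 5 * (Real.log ξ * (2 - Real.log (Real.log ξ / Real.log z)) - Real.log z)
      - C * (Real.log ξ / Real.log z) ≤ GZ ξ z := by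
  obtain ⟨C1, hC1, hm1⟩ := Pool.Agent.Helper923.HMertens.mertens_ratio
  obtain ⟨C2, hm2⟩ := Pool.Agent.Helper923.HMertens.mertens_log
  have hC2 : 0 ≤ C2 := (abs_nonneg _).trans (hm2 1 le_rfl)
  have hl2 : 0 < Real.log 2 := Real.log_pos (by norm_num)
  refine ⟨2 / 5 * ((C1 + 1) + 1 + (C1 + 1) / Real.log 2 + (2 * C2 + Real.log 2)), by positivity, ?_⟩
  intro z ξ hz hzξ
  have hz2 : (2 : ℝ) ≤ z := by exact_mod_cast hz
  have hz0 : (0 : ℝ) < z := by linarith
  have hξ0 : (0 : ℝ) < ξ := by linarith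
  set N := ⌊ξ⌋₊ with hN
  have hNξ : (N : ℝ) ≤ ξ := Nat.floor_le hξ0.le
  have hξN : ξ < N + 1 := Nat.lt_floor_add_one ξ
  have hzN : z ≤ N := Nat.le_floor hzξ
  have hN2 : (2 : ℝ) ≤ N := by exact_mod_cast hz.trans hzN
  set Lx := Real.log ξ with hLx
  set Lz := Real.log z with hLz
  have hLz2 : Real.log 2 ≤ Lz := Real.log_le_log (by norm_num) hz2
  have hLz0 : 0 < Lz := by linarith
  have hLxz : Lz ≤ Lx := Real.log_le_log hz0 hzξ
  have hLx0 : 0 < Lx := by linarith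
  set r := Lx / Lz with hr
  have hr1 : 1 ≤ r := by rw [hr, le_div_iff₀ hLz0]; linarith
  -- the complement of the smooth integers
  have hsplit : ∑ n ∈ Icc 1 N, ((n : ℝ))⁻¹ ≤
      ∑ n ∈ (Icc 1 N).filter (fun n => ∀ p ∈ n.primeFactors, p < z), ((n : ℝ))⁻¹ +
      ∑ p ∈ (Icc z N).filter Nat.Prime, ∑ n ∈ (Icc 1 N).filter (fun n => p ∣ n), ((n : ℝ))⁻¹ := by
    rw [← sum_filter_add_sum_filter_not (Icc 1 N) (fun n => ∀ p ∈ n.primeFactors, p < z)]
    apply add_le_add le_rfl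
    have e1 : ∑ p ∈ (Icc z N).filter Nat.Prime, ∑ n ∈ (Icc 1 N).filter (fun n => p ∣ n), ((n : ℝ))⁻¹
        = ∑ n ∈ Icc 1 N, ∑ p ∈ ((Icc z N).filter Nat.Prime).filter (fun p => p ∣ n), ((n : ℝ))⁻¹ := by
      simp_rw [sum_filter (s := Icc 1 N)]
      rw [sum_comm]
      apply sum_congr rfl
      intro n _
      rw [sum_filter (s := (Icc z N).filter Nat.Prime)]
    rw [e1]
    calc ∑ n ∈ (Icc 1 N).filter (fun n => ¬ ∀ p ∈ n.primeFactors, p < z), ((n : ℝ))⁻¹
        ≤ ∑ n ∈ (Icc 1 N).filter (fun n => ¬ ∀ p ∈ n.primeFactors, p < z),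
          ∑ p ∈ ((Icc z N).filter Nat.Prime).filter (fun p => p ∣ n), ((n : ℝ))⁻¹ := by
          apply sum_le_sum
          intro n hn
          obtain ⟨hn1, hn2⟩ := mem_filter.1 hn
          obtain ⟨hn3, hn4⟩ := mem_Icc.1 hn1
          push Not at hn2
          obtain ⟨p, hpm, hzp⟩ := hn2
          obtain ⟨hp, hpn, -⟩ := Nat.mem_primeFactors.1 hpm
          have hmem : p ∈ ((Icc z N).filter Nat.Prime).filter (fun p => p ∣ n) := by
            rw [mem_filter, mem_filter, mem_Icc]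
            exact ⟨⟨⟨hzp, (Nat.le_of_dvd (by omega) hpn).trans hn4⟩, hp⟩, hpn⟩
          exact single_le_sum (f := fun _ : ℕ => ((n : ℝ))⁻¹) (fun _ _ => by positivity) hmem
      _ ≤ _ := by
          apply sum_le_sum_of_subset_of_nonneg (filter_subset _ _)
          intro n _ _
          exact sum_nonneg fun _ _ => by positivity
  have hlow : Lx ≤ ∑ n ∈ Icc 1 N, ((n : ℝ))⁻¹ := by
    have h4 := log_add_one_le_harmonic N
    have h5 : ((harmonic N : ℚ) : ℝ) = ∑ n ∈ Icc 1 N, ((n : ℝ))⁻¹ := by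
      rw [harmonic_eq_sum_Icc]
      push_cast
      rfl
    rw [h5] at h4
    push_cast at h4
    exact le_trans (Real.log_le_log hξ0 hξN.le) h4
  have hsm := smooth_le N z ξ hNξ
  have hmult : ∑ p ∈ (Icc z N).filter Nat.Prime, ∑ n ∈ (Icc 1 N).filter (fun n => p ∣ n), ((n : ℝ))⁻¹ ≤
      (1 + Lx) * ∑ p ∈ (Icc z N).filter Nat.Prime, 1 / (p : ℝ) -
      ∑ p ∈ (Icc z N).filter Nat.Prime, Real.log p / p := by
    rw [mul_sum, ← sum_sub_distrib]
    apply sum_le_sum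
    intro p hp
    obtain ⟨hp1, hp2⟩ := mem_filter.1 hp
    obtain ⟨hp3, hp4⟩ := mem_Icc.1 hp1
    refine (mult_le N p (by omega) hp4 ξ hNξ).trans (le_of_eq ?_)
    rw [← hLx]
    ring
  have hins : (Icc z N).filter Nat.Prime ⊆ insert z ((Ioc z N).filter Nat.Prime) := by
    intro p hp
    obtain ⟨hp1, hp2⟩ := mem_filter.1 hp
    obtain ⟨hp3, hp4⟩ := mem_Icc.1 hp1
    rw [mem_insert, mem_filter, mem_Ioc]
    rcases Nat.eq_or_lt_of_le hp3 with h | h
    · exact Or.inl h.symm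
    · exact Or.inr ⟨⟨h, hp4⟩, hp2⟩
  -- sum of 1/p
  have hS1 : ∑ p ∈ (Icc z N).filter Nat.Prime, 1 / (p : ℝ) ≤ Real.log r + (C1 + 1) / Lz := by
    have h1 : ∑ p ∈ (Icc z N).filter Nat.Prime, 1 / (p : ℝ) ≤
        1 / (z : ℝ) + ∑ p ∈ (Ioc z N).filter Nat.Prime, 1 / (p : ℝ) := by
      refine (sum_le_sum_of_subset_of_nonneg hins (fun _ _ _ => by positivity)).trans ?_
      rw [sum_insert (by simp)]
    have h2 := (abs_le.1 (hm1 z N hz hzN)).2
    have h3 : Real.log (Real.log N / Real.log z) ≤ Real.log r := by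
      apply Real.log_le_log
      · apply div_pos _ hLz0
        exact Real.log_pos (by linarith)
      · rw [hr, hLx, hLz]
        apply div_le_div_of_nonneg_right _ hLz0.le
        exact Real.log_le_log (by linarith) hNξ
    have h4 : 1 / (z : ℝ) ≤ 1 / Lz := by
      apply one_div_le_one_div_of_le hLz0
      have := Real.log_le_sub_one_of_pos hz0
      linarith
    have h5 : (C1 + 1) / Lz = C1 / Lz + 1 / Lz := by ring
    have h6 : C1 / Real.log z = C1 / Lz := rfl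
    linarith
  -- sum of log p / p
  have hS2 : Lx - Lz - (2 * C2 + Real.log 2) ≤ ∑ p ∈ (Icc z N).filter Nat.Prime, Real.log p / p := by
    have h1 := (abs_le.1 (hm2 N (by omega))).1
    have h2 := (abs_le.1 (hm2 z (by omega))).2
    have h3 : ∑ p ∈ (Icc 1 N).filter Nat.Prime, Real.log p / p ≤
        ∑ p ∈ (Icc 1 z).filter Nat.Prime, Real.log p / p +
        ∑ p ∈ (Icc z N).filter Nat.Prime, Real.log p / p := by
      have hsub : (Icc 1 N).filter Nat.Prime ⊆
          (Icc 1 z).filter Nat.Prime ∪ (Icc z N).filter Nat.Prime := by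
        intro p hp
        simp only [mem_union, mem_filter, mem_Icc] at hp ⊢
        rcases Nat.le_total p z with h | h
        · exact Or.inl ⟨⟨hp.1.1, h⟩, hp.2⟩
        · exact Or.inr ⟨⟨h, hp.1.2⟩, hp.2⟩
      have hnn : ∀ p : ℕ, 0 ≤ Real.log p / p := fun p =>
        div_nonneg (Real.log_natCast_nonneg p) (Nat.cast_nonneg p)
      refine (sum_le_sum_of_subset_of_nonneg hsub (fun p _ _ => hnn p)).trans ?_
      rw [← sum_union_inter]
      have := sum_nonneg (s := (Icc 1 z).filter Nat.Prime ∩ (Icc z N).filter Nat.Prime)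
        (fun p _ => hnn p)
      linarith
    have h4 : Lx - Real.log 2 ≤ Real.log N := by
      rw [hLx, ← Real.log_div hξ0.ne' (by norm_num)]
      apply Real.log_le_log (by positivity)
      linarith
    linarith
  have hlr : Real.log r ≤ r := by
    have := Real.log_le_sub_one_of_pos (show 0 < r by linarith)
    linarith
  have hlr0 : 0 ≤ Real.log r := Real.log_nonneg hr1
  have key : Lx - ((1 + Lx) * (Real.log r + (C1 + 1) / Lz) - (Lx - Lz - (2 * C2 + Real.log 2))) ≤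
      5 / 2 * GZ ξ z := by
    have h1 : (1 + Lx) * ∑ p ∈ (Icc z N).filter Nat.Prime, 1 / (p : ℝ) ≤
        (1 + Lx) * (Real.log r + (C1 + 1) / Lz) := mul_le_mul_of_nonneg_left hS1 (by linarith)
    linarith
  have e1 : Lx * ((C1 + 1) / Lz) = (C1 + 1) * r := by rw [hr]; ring
  have e2 : (C1 + 1) / Lz ≤ (C1 + 1) / Real.log 2 * r := by
    calc (C1 + 1) / Lz ≤ (C1 + 1) / Real.log 2 := by gcongr
      _ = (C1 + 1) / Real.log 2 * 1 := by ring
      _ ≤ (C1 + 1) / Real.log 2 * r := by gcongr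
  have e3 : 2 * C2 + Real.log 2 ≤ (2 * C2 + Real.log 2) * r := by nlinarith
  have e4 : (1 + Lx) * (Real.log r + (C1 + 1) / Lz) =
      Real.log r + (C1 + 1) / Lz + Lx * Real.log r + Lx * ((C1 + 1) / Lz) := by ring
  rw [e4, e1] at key
  have e5 : 2 / 5 * (Lx * (2 - Real.log r) - Lz) -
      2 / 5 * ((C1 + 1) + 1 + (C1 + 1) / Real.log 2 + (2 * C2 + Real.log 2)) * r =
      2 / 5 * (2 * Lx - Lx * Real.log r - Lz - ((C1 + 1) * r + r + (C1 + 1) / Real.log 2 * r +
        (2 * C2 + Real.log 2) * r)) := by ring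
  rw [e5]
  linarith

end Pool.Agent.H442R2.PalQ8
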